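import Pool.Agent.LRY.Stmts

/-! Row QPO of the squad LRY: the quadratic equation of a unit over a subfield of index 2. -/

set_option autoImplicit false

open Polynomial NumberField

namespace Pool.Agent.LRY.H97

open Pool.Agent.LRY Pool.Agent.LRG.E

/-- the quadratic equation -/
theorem qpo_eq {E K : Type} [Field E] [Field K] [Algebra E K] [FiniteDimensional E K]
    (h : Module.finrank E K = 2) (u : K) :
    u ^ 2 - algebraMap E K (Algebra.trace E K u) * u + algebraMap E K (Algebra.norm E u) = 0 := by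
  classical
  have B : Module.Basis (Fin 2) E K := Module.finBasisOfFinrankEq E K h
  have h1 := Matrix.aeval_self_charpoly (Algebra.leftMulMatrix B u)
  rw [Matrix.charpoly_fin_two, ← Algebra.trace_eq_matrix_trace B u,
    ← Algebra.norm_eq_matrix_det B u, aeval_algHom_apply] at h1
  have h2 : aeval u (X ^ 2 - C (Algebra.trace E K u) * X + C (Algebra.norm E u) : E[X]) = 0 := by
    apply Algebra.leftMulMatrix_injective B
    rw [h1, map_zero]
  rw [map_add, map_sub, map_mul, map_pow, aeval_X, aeval_C, aeval_C] at h2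
  exact h2

/-- **QPO** -/
theorem qpo : QpoStmt := by
  intro K _ _ E u X hE hu
  refine ⟨⟨Algebra.trace E K ((u : 𝓞 K) : K),
    Algebra.isIntegral_trace (RingOfIntegers.isIntegral_coe (u : 𝓞 K))⟩,
    Units.map (RingOfIntegers.norm E) u, ?_, ?_, qpo_eq hE _⟩
  · intro τ
    letI := τ.toAlgebra
    have e1 : τ (Algebra.trace E K ((u : 𝓞 K) : K)) =
        ∑ σ : K →ₐ[E] ℂ, σ ((u : 𝓞 K) : K) :=
      trace_eq_sum_embeddings (K := E) (L := K) ℂ
    change ‖τ (Algebra.trace E K ((u : 𝓞 K) : K))‖ ≤ 2 * X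
    rw [e1]
    refine (norm_sum_le _ _).trans ?_
    calc ∑ σ : K →ₐ[E] ℂ, ‖σ ((u : 𝓞 K) : K)‖ ≤ ∑ _σ : K →ₐ[E] ℂ, X :=
          Finset.sum_le_sum (fun σ _ => hu (σ : K →+* ℂ))
      _ = 2 * X := by
          rw [Finset.sum_const, Finset.card_univ, AlgHom.card, hE, nsmul_eq_mul]
          norm_num
  · intro τ
    letI := τ.toAlgebra
    have e1 : τ (Algebra.norm E ((u : 𝓞 K) : K)) =
        ∏ σ : K →ₐ[E] ℂ, σ ((u : 𝓞 K) : K) :=
      Algebra.norm_eq_prod_embeddings E ℂ ((u : 𝓞 K) : K)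
    change ‖τ (Algebra.norm E ((u : 𝓞 K) : K))‖ ≤ X ^ 2
    rw [e1, norm_prod]
    calc ∏ σ : K →ₐ[E] ℂ, ‖σ ((u : 𝓞 K) : K)‖ ≤ ∏ _σ : K →ₐ[E] ℂ, X :=
          Finset.prod_le_prod (fun σ _ => norm_nonneg _) (fun σ _ => hu (σ : K →+* ℂ))
      _ = X ^ 2 := by
          rw [Finset.prod_const, Finset.card_univ, AlgHom.card, hE]

end Pool.Agent.LRY.H97
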